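import Pool.Agent.K1H17.SC.Stm2

/-! Passage from a subfield to the field. -/

set_option autoImplicit false
set_option linter.overlappingInstances false

open Polynomial IntermediateField

namespace Pool.Agent.K1H26.SC

open Pool.Agent.K1H17.SC

theorem t_TRA : S_TRA := by
  intro k L _ _ _ ι E T s x f A m τ z h
  classical
  have hx : ∀ i ∈ T, x i ∈ E := by
    intro i hi
    rw [← h.gen]
    exact (le_sup_left.trans' le_sup_right : adjoin k (x '' T) ≤ _) (subset_adjoin k _ ⟨i, hi, rfl⟩)
  have hz : ∀ j, z j ∈ E := by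
    intro j
    rw [← h.gen]
    exact (le_sup_right : adjoin k (Set.range z) ≤ _) (subset_adjoin k _ ⟨j, rfl⟩)
  have hτ : ∀ j, τ j ∈ E := fun j => (bot_le : (⊥ : IntermediateField k L) ≤ E) (h.mem j)
  refine ⟨T.equivFin.symm, fun i => ⟨x (T.equivFin.symm i), hx _ (T.equivFin.symm i).2⟩,
    fun j => ⟨τ j, hτ j⟩, fun j => ⟨z j, hz j⟩, ?_⟩
  refine ⟨?_, fun i _ => h.deg _ (T.equivFin.symm i).2, fun i _ => h.sqf _ (T.equivFin.symm i).2,
    h.pos, ?_, ?_, ?_, fun j i _ => h.dvd j _ (T.equivFin.symm i).2, ?_⟩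
  · have h1 : AlgebraicIndependent k (fun i : T => x i) :=
      h.indep.restrictScalars (algebraMap k (⊥ : IntermediateField k L)).injective
    have h2 : AlgebraicIndependent k (fun i : T => (⟨x i, hx i i.2⟩ : E)) := by
      rw [← E.val.algebraicIndependent_iff E.val.injective]
      exact h1
    have h3 : AlgebraicIndependent (⊥ : IntermediateField k E)
        (fun i : T => (⟨x i, hx i i.2⟩ : E)) := h2.extendScalars _
    exact h3.comp (fun i : (Finset.univ : Finset (Fin T.card)) => T.equivFin.symm i.1)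
      (T.equivFin.symm.injective.comp Subtype.val_injective)
  · intro j
    obtain ⟨c, hc⟩ := IntermediateField.mem_bot.1 (h.mem j)
    exact IntermediateField.mem_bot.2 ⟨c, Subtype.ext hc⟩
  · intro j h0
    exact h.ne0 j (congrArg Subtype.val h0)
  · intro j
    apply Subtype.ext
    have h1 := h.root j
    rw [← Finset.prod_coe_sort T, ← T.equivFin.symm.prod_comp] at h1
    simp only [SubmonoidClass.coe_pow, MulMemClass.coe_mul, h1]
    congr 1
    symm
    refine (map_prod E.val _ _).trans (Finset.prod_congr rfl fun i _ => ?_)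
    rw [map_zpow₀, ← Polynomial.aeval_algHom_apply]
    rfl
  · apply IntermediateField.lift_injective E
    rw [lift_sup, lift_sup, lift_bot, lift_adjoin, lift_adjoin, lift_top]
    refine Eq.trans ?_ h.gen
    congr 2
    · congr 1
      ext y
      simp only [Set.mem_image, Finset.mem_coe]
      constructor
      · rintro ⟨_, ⟨i, _, rfl⟩, rfl⟩
        exact ⟨_, (T.equivFin.symm i).2, rfl⟩
      · rintro ⟨i, hi, rfl⟩
        refine ⟨_, ⟨T.equivFin ⟨i, hi⟩, Finset.mem_univ _, rfl⟩, ?_⟩
        simp
    · ext y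
      simp

end Pool.Agent.K1H26.SC
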